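import Pool.Agent.TH971.SR.D3
import Pool.Agent.W282.LF.Top

/-!
# MP_d27c8d_nt: the relative dynamical Manin-Mumford statement (points of fibre-wise height `0`) for a
positive proportion of all families of polynomials and pull-backs of arbitrary varieties, over any
base

`B ⊆ P^N` is an arbitrary projective variety over the algebraic numbers of dimension at most `m`
(`DimLE`): the set of zeros of a family `G` of forms with algebraic coefficients. (In the problem `B`
is a curve, `m = 1`.) A vector `c` of integers gives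

* for `i = 1, …, n` a family of polynomials of degree `δ_i ≥ 2`
  `f_{i,y} (x) = (∑_{k ≤ δ_i} F_{i,k} (y) x ^ k) / F_{i,δ_i} (y)` (`fam`) over the open subset
  `F_{i,δ_i} ≠ 0` of `B`, where the `F_{i,k}` are arbitrary forms of degree `e_i` in `y_0, …, y_N`
  with integral coefficients. (Every polynomial over the function field is conjugate to a monic one
  over a finite extension.)
* `r` numerators `N_j = ∑_f c(j, 0, f)(y) ∏_i z_i ^ (f_i)` and `r` denominators
  `M_j = ∑_f c(j, 1, f)(y) ∏_i z_i ^ (f_i)` (`comp`), the sums over all exponent vectors `f ≤ D_j`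
  (multidegree `D_j` in `(P^1)^n`), where the coefficients are arbitrary forms of degree `d_j` in
  `y_0, …, y_N` with integral coefficients, and the rational map `R_c = (N_1 / M_1, …, N_r / M_r)`
  from `B × 𝔸^n` to `ℂ^r`.

Let `V` be any irreducible subvariety of `ℂ^r` over the complex numbers, of any dimension `d`. Let
`X_c = total G c V` be the closed set of all points `(y, z)` of `B × 𝔸^n` at which the
multihomogenizations of the polynomials in the ideal of `V` vanish, evaluated at `N_j, M_j`. It
contains the closure of the pull-back `R_c⁻¹(V)`. For `V = {0}` it is the (affine part of the)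
complete intersection `N_1 = … = N_r = 0` in `(P^1)^n` over the function field of `B` (spread out over
`B`). The expected dimension of `X_c` is `m + n - (r - d)`, and every component of `X_c` has at least
this dimension, if all components of `B` have dimension `m` (outside of the common zeros of `N_j` and
`M_j` for some `j`, and everywhere for `V = {0}`).

Theorem: for a positive proportion of the vectors `c` (in every box, in every residue class) the
following is true for all `ρ`.

* Every irreducible closed subset `W` of `X_c`, such that for the points `(y, z)` of `W` (or of a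
  nonempty open subset of `W`) at least `ρ` of the coordinates `z_i` are preperiodic for `f_{i,y}`,
  has dimension at most `m + n - (r - d) - ρ`, and the same holds for the irreducible closed subsets
  of the image of `X_c` in `𝔸^n`. This is the bound of a dynamical Zilber-Pink conjecture: the
  condition that `ρ` given coordinates are preperiodic is a countable union of conditions of
  codimension `ρ`.
* If `ρ > m + n - (r - d)`, then there is no point `(y, z)` in `X_c` such that at least `ρ` of the
  coordinates `z_i` are preperiodic for `f_{i,y}`.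

In particular (`ρ = n`): if `r - d > m`, i.e. if the expected dimension of the subvariety
`V_c ⊆ (P^1)^n` over the function field of `B` is smaller than `n - m`, then no point `(y, z)` of
`X_c` over the set where `F = (f_1, …, f_n)` is defined has all its coordinates preperiodic. For a
curve `B` this is the range `dim V_c < n - 1` of the problem, and the statement says that the part
with finite coordinates of `𝒱` has no points of fibre-wise height `ĥ_F = 0`, over the complex numbers
as well as over the algebraic numbers. So this is the Manin-Mumford part (`ε = 0`) of the conjecture,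
for a positive proportion of all `(F, V_c)` with polynomials `f_i` of any degrees and random
pull-backs `V_c` of arbitrary varieties (for example random complete intersections), of any dimension
`< n - 1`.
-/

namespace Pool.Agent.Results.MP_d27c8d_nt.RandomPolynomialFamilies

open MvPolynomial Pool.Agent.W282.ZP

/-- The value at `y` of the form of degree `d` with integral coefficients `c u`, the monomials of
degree `d` in `y_0, …, y_N` being indexed by the multisets `u` of size `d`. -/
noncomputable def value {N d : ℕ} (c : Sym (Fin (N + 1)) d → ℤ) (y : Fin (N + 1) → ℂ) : ℂ :=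
  ∑ u : Sym (Fin (N + 1)) d, (c u : ℂ) * ((u : Multiset (Fin (N + 1))).map y).prod

/-- `y` is a vector of homogeneous coordinates of a point of the projective algebraic set `B`
defined by the forms `G k`. -/
def OnB {N : ℕ} {κ : Type*} (G : κ → MvPolynomial (Fin (N + 1)) ℂ) (y : Fin (N + 1) → ℂ) : Prop :=
  y ≠ 0 ∧ ∀ k, eval y (G k) = 0

/-- The projective algebraic set defined by the forms `G k` has dimension at most `m`: it does not
meet some linear subspace defined by `m + 1` linear forms. -/
def DimLE {N : ℕ} {κ : Type*} (G : κ → MvPolynomial (Fin (N + 1)) ℂ) (m : ℕ) : Prop :=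
  ∃ t : Fin (m + 1) → Fin (N + 1) → ℂ, ∀ y, OnB G y → ∃ b, ∑ j, t b j * y j ≠ 0

/-- The index set of the integral coefficients of the forms `F_{i,k}`, `k ≤ δ_i`, of degree `e_i`
and `c(j, s, f)`, `f ≤ D_j`, of degree `d_j`, for `s = 0` (numerator) and `s = 1` (denominator). -/
abbrev Idx {n r : ℕ} (N : ℕ) (δ e : Fin n → ℕ) (D : Fin r → Fin n → ℕ) (d : Fin r → ℕ) : Type :=
  (Σ x : (Σ i : Fin n, Fin (δ i + 1)), Sym (Fin (N + 1)) (e x.1)) ⊕
    (Σ x : (Σ j : Fin r, Fin 2 × ((i : Fin n) → Fin (D j i + 1))), Sym (Fin (N + 1)) (d x.1))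

/-- The coefficient vectors. -/
abbrev Coeffs {n r : ℕ} (N : ℕ) (δ e : Fin n → ℕ) (D : Fin r → Fin n → ℕ) (d : Fin r → ℕ) : Type :=
  Idx N δ e D d → ℤ

variable {N n r : ℕ} {δ e : Fin n → ℕ} {D : Fin r → Fin n → ℕ} {d : Fin r → ℕ}

/-- The value `F_{i,k} (y)`. -/
noncomputable def coefF (c : Coeffs N δ e D d) (i : Fin n) (k : Fin (δ i + 1))
    (y : Fin (N + 1) → ℂ) : ℂ :=
  value (fun u => c (Sum.inl ⟨⟨i, k⟩, u⟩)) y

/-- The monic polynomial `f_{i,y} (x) = (∑_{k ≤ δ_i} F_{i,k} (y) x ^ k) / F_{i,δ_i} (y)`. -/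
noncomputable def fam (c : Coeffs N δ e D d) (i : Fin n) (y : Fin (N + 1) → ℂ) (x : ℂ) : ℂ :=
  (∑ k : Fin (δ i + 1), coefF c i k y * x ^ (k : ℕ)) / coefF c i (Fin.last (δ i)) y

/-- The value of the numerator (`s = 0`) or denominator (`s = 1`) of the `j`-th component of `R_c`
at `(y, z)`. -/
noncomputable def comp (c : Coeffs N δ e D d) (s : Fin 2) (y : Fin (N + 1) → ℂ) (z : Fin n → ℂ)
    (j : Fin r) : ℂ :=
  ∑ f : (i : Fin n) → Fin (D j i + 1), value (fun u => c (Sum.inr ⟨⟨j, s, f⟩, u⟩)) y *
    ∏ i, z i ^ (f i : ℕ)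

/-- The set `X_c` of the points `(y, z)` of `B × 𝔸^n` at which the multihomogenizations of all the
polynomials `h` in the ideal of `V` vanish, evaluated at the values of the numerators and
denominators. -/
def total {κ : Type*} (G : κ → MvPolynomial (Fin (N + 1)) ℂ) (c : Coeffs N δ e D d)
    (V : Set (Fin r → ℂ)) : Set ((Fin (N + 1) → ℂ) × (Fin n → ℂ)) :=
  {x | OnB G x.1 ∧ ∀ h ∈ idealOf V, ∑ v ∈ h.support, h.coeff v *
    ∏ j, (comp c 0 x.1 x.2 j ^ (v j) * comp c 1 x.1 x.2 j ^ (h.degreeOf j - v j)) = 0}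

/-- `x` is preperiodic for `f`. -/
def Preperiodic (f : ℂ → ℂ) (x : ℂ) : Prop := ∃ a b : ℕ, a ≠ b ∧ f^[a] x = f^[b] x

/-- At least `ρ` of the coordinates `z_i` are preperiodic for `f_{i,y}` (where `f_{i,y}` is
defined). -/
def ManyPreperiodic (c : Coeffs N δ e D d) (y : Fin (N + 1) → ℂ) (z : Fin n → ℂ) (ρ : ℕ) : Prop :=
  ∃ P : Finset (Fin n), ρ ≤ P.card ∧ ∀ i ∈ P, coefF c i (Fin.last (δ i)) y ≠ 0 ∧
    Preperiodic (fam c i y) (z i)

/-- For all `ρ > m + n - (r - dim V)` no point of `X_c` has at least `ρ` preperiodic coordinates, and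
for all `ρ` every irreducible closed subset `W` of the image in `𝔸^n` of the set of the points of
`X_c` with at least `ρ` preperiodic coordinates satisfies `dim W + ρ + r ≤ m + n + dim V`, and the
same holds for the irreducible closed subsets of this set of points of `X_c`.

Here `W` is more precisely an irreducible closed set such that all points in `W` outside of some
hypersurface `p = 0`, which does not contain `W`, are such points `z`, respectively the vectors of
coordinates (numbered in any way) of such points `(y, z)` over the affine part `y_{j₀} = 1` of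
`P^N`. -/
def NoAtypical {κ : Type*} (G : κ → MvPolynomial (Fin (N + 1)) ℂ) (c : Coeffs N δ e D d)
    (V : Set (Fin r → ℂ)) (m : ℕ) : Prop :=
  ∀ ρ : ℕ,
    ((m : Cardinal) + (n : Cardinal) + zdim V < (ρ : Cardinal) + (r : Cardinal) →
      ∀ x ∈ total G c V, ¬ ManyPreperiodic c x.1 x.2 ρ) ∧
    (∀ (W : Set (Fin n → ℂ)) (p : MvPolynomial (Fin n) ℂ),
      (∀ z ∈ W, eval z p ≠ 0 → ∃ y, (y, z) ∈ total G c V ∧ ManyPreperiodic c y z ρ) →
      zcl W ⊆ W → (idealOf W).IsPrime → p ∉ idealOf W →
      zdim W + (ρ : Cardinal) + (r : Cardinal) ≤ (m : Cardinal) + (n : Cardinal) + zdim V) ∧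
    ∀ (j₀ : Fin (N + 1)) (s : ℕ) (σ : Fin s ≃ Fin (N + 1) ⊕ Fin n) (W : Set (Fin s → ℂ))
      (p : MvPolynomial (Fin s) ℂ),
      (∀ w ∈ W, eval w p ≠ 0 →
        ∃ x ∈ total G c V, x.1 j₀ = 1 ∧ ManyPreperiodic c x.1 x.2 ρ ∧
          ∀ i, w i = Sum.elim x.1 x.2 (σ i)) →
      zcl W ⊆ W → (idealOf W).IsPrime → p ∉ idealOf W →
      zdim W + (ρ : Cardinal) + (r : Cardinal) ≤ (m : Cardinal) + (n : Cardinal) + zdim V

/-- scaling of the coordinates of the base -/
theorem scale_mem {κ : Type*} {G : κ → MvPolynomial (Fin (N + 1)) ℂ}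
    (hhom : ∀ k, ∃ e, (G k).IsHomogeneous e) {c : Coeffs N δ e D d} {V : Set (Fin r → ℂ)}
    {y : Fin (N + 1) → ℂ} {z : Fin n → ℂ} (h : (y, z) ∈ total G c V) {a : ℂ} (ha : a ≠ 0) :
    (a • y, z) ∈ total G c V := by
  obtain ⟨⟨h1, h2⟩, h3⟩ := h
  refine ⟨⟨smul_ne_zero ha h1, fun k => ?_⟩, fun g hg => ?_⟩
  · obtain ⟨w, hw⟩ := hhom k
    change eval (a • y) (G k) = 0
    rw [Pool.Agent.W466.ZC.eval_smul hw, h2 k, mul_zero]
  · have h4 : ∀ (s : Fin 2) (j : Fin r), comp c s (a • y) z j = a ^ d j * comp c s y z j := by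
      intro s j
      unfold comp
      rw [Finset.mul_sum]
      refine Finset.sum_congr rfl fun f _ => ?_
      have h5 : value (fun u => c (Sum.inr ⟨⟨j, s, f⟩, u⟩)) (a • y) =
          a ^ d j * value (fun u => c (Sum.inr ⟨⟨j, s, f⟩, u⟩)) y :=
        Pool.Agent.W466.ZP.ev_smul (fun u => c (Sum.inr ⟨⟨j, s, f⟩, u⟩)) a y
      rw [h5, mul_assoc]
    have h5 := Pool.Agent.TH971.SR.homV_scale (fun j => comp c 0 y z j) (fun j => comp c 1 y z j)
      (fun j => a ^ d j) g
    have h6 : Pool.Agent.TH971.SP.homV (fun j => comp c 0 y z j) (fun j => comp c 1 y z j) g = 0 :=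
      h3 g hg
    rw [h6, mul_zero] at h5
    have h7 : Pool.Agent.TH971.SP.homV (fun j => comp c 0 (a • y) z j)
        (fun j => comp c 1 (a • y) z j) g = 0 := by
      rw [← h5]
      congr 1
      · funext j
        exact h4 0 j
      · funext j
        exact h4 1 j
    exact h7

/-- scaling of the coordinates of the base -/
theorem scale_prep {c : Coeffs N δ e D d} {y : Fin (N + 1) → ℂ} {z : Fin n → ℂ} {ρ : ℕ}
    (h : ManyPreperiodic c y z ρ) {a : ℂ} (ha : a ≠ 0) : ManyPreperiodic c (a • y) z ρ := by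
  obtain ⟨P, hP, h1⟩ := h
  have h2 : ∀ i k, coefF c i k (a • y) = a ^ e i * coefF c i k y := fun i k =>
    Pool.Agent.W466.ZP.ev_smul (fun u => c (Sum.inl ⟨⟨i, k⟩, u⟩)) a y
  refine ⟨P, hP, fun i hi => ⟨?_, ?_⟩⟩
  · rw [h2]
    exact mul_ne_zero (pow_ne_zero _ ha) (h1 i hi).1
  · have h3 : fam c i (a • y) = fam c i y := by
      funext x
      unfold fam
      simp only [h2, mul_assoc]
      rw [← Finset.mul_sum, mul_div_mul_left _ _ (pow_ne_zero _ ha)]
    rw [h3]
    exact (h1 i hi).2

/-- Let `B` be any projective variety of dimension at most `m` over the algebraic numbers. For every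
irreducible `V ⊂ ℂ^r` and all degrees, in every residue class modulo any `Q₀` and in every box `H u + [-ε H, ε H]` there is a
positive proportion of integer vectors `c` for which the points of `X_c` with preperiodic
coordinates satisfy the bounds above. -/
theorem result {κ : Type} {N n : ℕ} (m r : ℕ) (G : κ → MvPolynomial (Fin (N + 1)) ℂ)
    (hhom : ∀ k, ∃ e, (G k).IsHomogeneous e) (halg : ∀ k s, IsAlgebraic ℚ ((G k).coeff s))
    (hdim : DimLE G m) (V : Set (Fin r → ℂ)) (hV : (idealOf V).IsPrime) (δ : Fin n → ℕ) (hδ : ∀ i, 2 ≤ δ i) (e : Fin n → ℕ)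
    (D : Fin r → Fin n → ℕ) (d : Fin r → ℕ)
    (Q₀ : ℕ) (hQ₀ : 0 < Q₀) (c₀ : Coeffs N δ e D d) (u : Idx N δ e D d → ℝ) (ε : ℝ) (hε : 0 < ε) :
    ∃ κ₀ : ℝ, 0 < κ₀ ∧ ∀ᶠ H : ℕ in Filter.atTop,
      κ₀ * (H : ℝ) ^ (Fintype.card (Idx N δ e D d)) ≤
        Nat.card {c : Coeffs N δ e D d // (∀ i, |(c i : ℝ) - H * u i| ≤ ε * H) ∧
          (∀ i, (Q₀ : ℤ) ∣ c i - c₀ i) ∧ NoAtypical G c V m} := by
  classical
  have hfin : Algebra.trdeg ℂ (MvPolynomial (Fin r) ℂ ⧸ idealOf V) < Cardinal.aleph0 :=
    trdeg_lt_aleph0_of_finiteType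
  obtain ⟨dV, hd⟩ := Cardinal.lt_aleph0.1 hfin
  have h1 : ∃ t : Fin (m + 1) → Fin (N + 1) → ℂ, ∀ y : Fin (N + 1) → ℂ,
      (∀ k, eval y (G k) = 0) → (∀ b, ∑ j, t b j * y j = 0) → y = 0 := by
    obtain ⟨t, ht⟩ := hdim
    refine ⟨t, fun y hy hb => ?_⟩
    by_contra h0
    obtain ⟨b, hb'⟩ := ht y ⟨h0, hy⟩
    exact hb' (hb b)
  obtain ⟨K, Q, Gt, hK, hQ, hmain⟩ := Pool.Agent.TH971.SR.exists_classE δ hδ e D d
    (idealOf V) hd G hhom halg h1 Q₀ hQ₀ c₀
  refine pos_proportion' Q hQ Gt _ (fun c hc => ?_) u ε hε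
  obtain ⟨hc0, hkey⟩ := hmain c hc
  refine ⟨hc0, ?_⟩
  have hkey' : ∀ (z : Fin n → ℂ) (ρ : ℕ) (y : Fin (N + 1) → ℂ), ManyPreperiodic c y z ρ →
      ∀ (j0 : Fin (N + 1)), y j0 = 1 → (y, z) ∈ total G c V →
      ∀ (T1 : Finset (Fin (N + 1))) (T2 : Finset (Fin n)),
      AlgebraicIndependent K (Sum.elim (fun j : T1 => y j) (fun j : T2 => z j)) →
      T1.card + T2.card + ρ + r ≤ m + n + dV := by
    rintro z ρ y ⟨P, hP, hPp⟩ j0 hj0 hX T1 T2 hT
    have h3 := hkey y j0 hj0 hX.1.2 z hX.2 P (fun i hi => (hPp i hi).1)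
      (fun i hi => (hPp i hi).2) T1 T2 hT
    omega
  have hpt : ∀ (z : Fin n → ℂ) (ρ : ℕ) (y : Fin (N + 1) → ℂ), ManyPreperiodic c y z ρ →
      (y, z) ∈ total G c V → ∀ T2 : Finset (Fin n),
      AlgebraicIndependent K (fun j : T2 => z j) → T2.card + ρ + r ≤ m + n + dV := by
    intro z ρ y hP hyX T hT
    obtain ⟨j0, hj0⟩ : ∃ j0, y j0 ≠ 0 := by
      by_contra hcon
      push Not at hcon
      exact hyX.1.1 (funext hcon)
    have h3 := hkey' z ρ ((y j0)⁻¹ • y) (scale_prep hP (inv_ne_zero hj0)) j0 (by
      rw [Pi.smul_apply, smul_eq_mul, inv_mul_cancel₀ hj0]) (scale_mem hhom hyX (inv_ne_zero hj0))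
      ∅ T (by
        let g : ((∅ : Finset (Fin (N + 1))) ⊕ T) → T := Sum.elim
          (fun j => absurd j.2 (Finset.notMem_empty _)) id
        have hg : Function.Injective g := by
          rintro (x | x) (y | y) h
          · exact absurd x.2 (Finset.notMem_empty _)
          · exact absurd x.2 (Finset.notMem_empty _)
          · exact absurd y.2 (Finset.notMem_empty _)
          · exact congrArg Sum.inr h
        have h5 := hT.comp g hg
        convert h5 using 1
        funext j
        rcases j with j | j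
        · exact absurd j.2 (Finset.notMem_empty _)
        · rfl)
    rw [Finset.card_empty, zero_add] at h3
    exact h3
  have hfinal : ∀ {T k : ℕ} {z : Cardinal}, z ≤ (T : Cardinal) → T + k + r ≤ m + n + dV →
      z + (k : Cardinal) + (r : Cardinal) ≤ (m : Cardinal) + (n : Cardinal) + zdim V := by
    intro T k z hz h
    calc z + (k : Cardinal) + (r : Cardinal)
        ≤ (T : Cardinal) + (k : Cardinal) + (r : Cardinal) := by gcongr
      _ = ((T + k + r : ℕ) : Cardinal) := by push_cast; rfl
      _ ≤ ((m + n + dV : ℕ) : Cardinal) := by exact_mod_cast h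
      _ = (m : Cardinal) + (n : Cardinal) + zdim V := by rw [zdim, hd]; push_cast; rfl
  intro ρ
  refine ⟨?_, ?_, ?_⟩
  · rintro hρ ⟨y, z⟩ hx hP
    have h3 := hpt z ρ y hP hx ∅ (by
      have : IsEmpty (∅ : Finset (Fin n)) := ⟨fun j => absurd j.2 (Finset.notMem_empty _)⟩
      exact algebraicIndependent_empty_type)
    rw [Finset.card_empty, zero_add] at h3
    have h4 : ((ρ : Cardinal) + (r : Cardinal)) ≤ (m : Cardinal) + (n : Cardinal) + zdim V := by
      calc ((ρ : Cardinal) + (r : Cardinal)) = ((ρ + r : ℕ) : Cardinal) := by push_cast; rfl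
        _ ≤ ((m + n + dV : ℕ) : Cardinal) := by exact_mod_cast h3
        _ = (m : Cardinal) + (n : Cardinal) + zdim V := by rw [zdim, hd]; push_cast; rfl
    exact absurd hρ (not_lt.2 h4)
  · intro W p hW hcl hprime hp
    obtain ⟨w, hwW, hpw, T, hT, hdimW⟩ :=
      Pool.Agent.W282.LF.generic_dim_open K W hprime hcl p hp
    obtain ⟨y, hyX, hwS⟩ := hW w hwW hpw
    exact hfinal hdimW (hpt w ρ y hwS hyX T hT)
  · intro j₀ s σ W p hW hcl hprime hp
    obtain ⟨w, hwW, hpw, T, hT, hdimW⟩ :=
      Pool.Agent.W282.LF.generic_dim_open K W hprime hcl p hp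
    obtain ⟨⟨y, z⟩, hzX, hzj, hzS, hwz⟩ := hW w hwW hpw
    set T' : Finset (Fin (N + 1) ⊕ Fin n) := T.map σ.toEmbedding with hT'
    have hTT : ∀ j, j ∈ T' → σ.symm j ∈ T := by
      intro j hj
      obtain ⟨t, ht, h⟩ := Finset.mem_map.1 hj
      rw [← h]
      simpa using ht
    let g : T'.toLeft ⊕ T'.toRight → T := Sum.elim
      (fun j => ⟨σ.symm (Sum.inl j), hTT _ (Finset.mem_toLeft.1 j.2)⟩)
      (fun j => ⟨σ.symm (Sum.inr j), hTT _ (Finset.mem_toRight.1 j.2)⟩)
    have hg : Function.Injective g := by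
      rintro (x | x) (y | y) h
      · have h1 := congrArg Subtype.val h
        have h2 := Sum.inl_injective (σ.symm.injective h1)
        rw [Subtype.ext h2]
      · have h1 := congrArg Subtype.val h
        have h2 := σ.symm.injective h1
        exact absurd h2 Sum.inl_ne_inr
      · have h1 := congrArg Subtype.val h
        have h2 := σ.symm.injective h1
        exact absurd h2 Sum.inr_ne_inl
      · have h1 := congrArg Subtype.val h
        have h2 := Sum.inr_injective (σ.symm.injective h1)
        rw [Subtype.ext h2]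
    refine hfinal hdimW ?_
    have h3 := hkey' z ρ y hzS j₀ hzj hzX T'.toLeft T'.toRight (by
        have h5 := hT.comp g hg
        convert h5 using 1
        funext j
        rcases j with j | j
        · change y j = w (σ.symm (Sum.inl j))
          rw [hwz, Equiv.apply_symm_apply]
          rfl
        · change z j = w (σ.symm (Sum.inr j))
          rw [hwz, Equiv.apply_symm_apply]
          rfl)
    have hT2 : T'.toLeft.card + T'.toRight.card = T.card := by
      rw [Finset.card_toLeft_add_card_toRight, hT', Finset.card_map]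
    rw [hT2] at h3
    exact h3

end Pool.Agent.Results.MP_d27c8d_nt.RandomPolynomialFamilies
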